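import Pool.Agent.P8H36.FD.Stm

/-! # Project FD, package DGR: the degree of the field extension -/

set_option autoImplicit false
set_option linter.all false

namespace Pool.Agent.P8H76.FD

open Polynomial IntermediateField Pool.Agent.P8H36.FD Module

theorem dgr (hLUR : S_LUR) (hCMP : S_CMP) (hRHZ : S_RHZ) : S_DGR := by
  intro K _ _ _ f g a b n H c ha hb hab hn hH hc hdf hdg hid
  have han : 2 ≤ a * n := le_trans ha (Nat.le_mul_of_pos_right a hn)
  have hbn : 2 ≤ b * n := le_trans hb (Nat.le_mul_of_pos_right b hn)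
  have habn : 0 < a * b * n := by positivity
  have hf0 : f ≠ 0 := by
    rintro rfl
    rw [natDegree_zero] at hdf
    omega
  have hg0 : g ≠ 0 := by
    rintro rfl
    rw [natDegree_zero] at hdg
    omega
  have hf'd : (derivative f).natDegree = a * n - 1 := by
    rw [natDegree_derivative, hdf]
  have hf'0 : derivative f ≠ 0 := by
    intro h
    rw [h, natDegree_zero] at hf'd
    omega
  have hcu : C c⁻¹ * C c = (1 : K[X]) := by
    rw [← C_mul, inv_mul_cancel₀ hc, C_1]
  have cfg : IsCoprime f g := ⟨C c⁻¹ * (((a * H : ℕ) : K[X]) * derivative g),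
    -(C c⁻¹ * (((b * H : ℕ) : K[X]) * derivative f)), by
      linear_combination (C c⁻¹) * hid + hcu⟩
  have cff : IsCoprime f (derivative f) := ⟨C c⁻¹ * (((a * H : ℕ) : K[X]) * derivative g),
    -(C c⁻¹ * (((b * H : ℕ) : K[X]) * g)), by
      linear_combination (C c⁻¹) * hid + hcu⟩
  have cgg : IsCoprime g (derivative g) := ⟨-(C c⁻¹ * (((b * H : ℕ) : K[X]) * derivative f)),
    C c⁻¹ * (((a * H : ℕ) : K[X]) * f), by
      linear_combination (C c⁻¹) * hid + hcu⟩
  have sf : Squarefree f := (show f.Separable from cff).squarefree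
  have sg : Squarefree g := (show g.Separable from cgg).squarefree
  have cpq : IsCoprime (f ^ b) (g ^ a) := cfg.pow
  have hp0 : f ^ b ≠ 0 := pow_ne_zero _ hf0
  have hq0 : g ^ a ≠ 0 := pow_ne_zero _ hg0
  obtain ⟨φ, hφd⟩ : ∃ φ : RatFunc K, φ = phi a b f g := ⟨_, rfl⟩
  obtain ⟨ψ, hψd⟩ : ∃ ψ : RatFunc K, ψ = psi f g := ⟨_, rfl⟩
  rw [← hφd, ← hψd]
  have hφe : φ = algebraMap K[X] (RatFunc K) (f ^ b) / algebraMap K[X] (RatFunc K) (g ^ a) := by
    rw [hφd]
    unfold phi
    rw [map_pow, map_pow]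
  have hι : ∀ p : K[X], p ≠ 0 → algebraMap K[X] (RatFunc K) p ≠ 0 := fun p hp =>
    RatFunc.algebraMap_ne_zero hp
  have hφ0 : φ ≠ 0 := by
    rw [hφe]
    exact div_ne_zero (hι _ hp0) (hι _ hq0)
  have hnum : φ.num * (g ^ a) = (f ^ b) * φ.denom := (RatFunc.num_mul_eq_mul_denom_iff hq0).2 hφe
  have hdv : f ^ b ∣ φ.num := cpq.dvd_of_dvd_mul_right ⟨φ.denom, hnum⟩
  have hN : a * b * n ≤ φ.num.natDegree := by
    have h1 := natDegree_le_of_dvd hdv (RatFunc.num_ne_zero hφ0)
    rw [natDegree_pow, hdf] at h1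
    calc a * b * n = b * (a * n) := by ring
      _ ≤ _ := h1
  have hnC : ¬ ∃ c, φ = RatFunc.C c := by
    rintro ⟨e, he⟩
    rw [he, RatFunc.num_C, natDegree_C] at hN
    omega
  have htr : Transcendental K φ := RatFunc.transcendental_of_ne_C φ hnC
  obtain ⟨E, hE⟩ : ∃ E : IntermediateField K (RatFunc K), E = IntermediateField.adjoin K {φ, ψ} :=
    ⟨_, rfl⟩
  have hφE : φ ∈ E := by
    rw [hE]
    exact IntermediateField.subset_adjoin K _ (by simp)
  have hψE : ψ ∈ E := by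
    rw [hE]
    exact IntermediateField.subset_adjoin K _ (by simp)
  have hη0 : derivative f * g ≠ 0 := mul_ne_zero hf'0 hg0
  have hη : algebraMap K[X] (RatFunc K) (derivative f * g) ∈ E := by
    have h1 : (((a * H : ℕ) : RatFunc K) * ψ - ((b * H : ℕ) : RatFunc K)) *
        algebraMap K[X] (RatFunc K) (derivative f * g) = algebraMap K (RatFunc K) c := by
      have h2 : ψ * algebraMap K[X] (RatFunc K) (derivative f * g) =
          algebraMap K[X] (RatFunc K) (f * derivative g) := by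
        rw [hψd]
        unfold psi
        rw [div_mul_cancel₀ _ (hι _ hη0)]
      have h3 := congrArg (algebraMap K[X] (RatFunc K)) hid
      have h4 : algebraMap K[X] (RatFunc K) (C c) = algebraMap K (RatFunc K) c :=
        (IsScalarTower.algebraMap_apply K K[X] (RatFunc K) c).symm
      rw [h4] at h3
      rw [← h3, sub_mul, mul_assoc, h2, map_sub, map_mul, map_mul, map_mul, map_mul, map_mul,
        map_mul, map_natCast, map_natCast]
      ring
    have h5 : algebraMap K (RatFunc K) c ≠ 0 := by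
      rw [Ne, map_eq_zero]
      exact hc
    have h6 : ((a * H : ℕ) : RatFunc K) * ψ - ((b * H : ℕ) : RatFunc K) ≠ 0 := by
      intro h
      rw [h, zero_mul] at h1
      exact h5 h1.symm
    have h7 : algebraMap K[X] (RatFunc K) (derivative f * g) =
        algebraMap K (RatFunc K) c / (((a * H : ℕ) : RatFunc K) * ψ - ((b * H : ℕ) : RatFunc K)) := by
      rw [eq_div_iff h6, mul_comm]
      exact h1
    rw [h7]
    exact E.div_mem (E.algebraMap_mem c)
      (E.sub_mem (E.mul_mem (_root_.natCast_mem E _) hψE) (_root_.natCast_mem E _))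
  have hηd : (derivative f * g).natDegree = (a + b) * n - 1 := by
    rw [natDegree_mul hf'0 hg0, hf'd, hdg, Nat.add_mul]
    omega
  obtain ⟨θ, hθ0, hθE⟩ := hLUR K E (derivative f * g) (by
    rw [hηd, Nat.add_mul]
    omega) hη
  have hfinE : finrank K⟮algebraMap K[X] (RatFunc K) θ⟯ (RatFunc K) = θ.natDegree := by
    rw [RatFunc.finrank_eq_max_natDegree, RatFunc.num_algebraMap, RatFunc.denom_algebraMap,
      natDegree_one, max_eq_left (Nat.zero_le _)]
  obtain ⟨P, Q, hP, hQ⟩ := hCMP K θ (f ^ b) (g ^ a) hθ0 cpq hq0 hp0 (by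
    rw [← hφe, ← hθE]
    exact hφE)
  obtain ⟨R1, R2, hR1, -⟩ := hCMP K θ (derivative f * g) 1 hθ0 isCoprime_one_right one_ne_zero
    hη0 (by
      rw [map_one, div_one, ← hθE]
      exact hη)
  have hw3 : θ.natDegree ∣ (a + b) * n - 1 := by
    rw [← hηd, hR1, natDegree_comp]
    exact dvd_mul_left _ _
  have hzz : ∀ (r : K[X]) (P : K[X]) (k : ℕ), 1 ≤ k → r ^ k = P.comp θ → ∀ z : K,
      (derivative θ).eval z = 0 → r.eval z ≠ 0 → (derivative r).eval z = 0 := by
    intro r P k hk hr z hz hrz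
    have h1 := congrArg (fun p : K[X] => (derivative p).eval z) hr
    simp only [derivative_pow, derivative_comp, eval_mul, eval_C, eval_pow, hz, zero_mul] at h1
    have h2 : (k : K) ≠ 0 := by exact_mod_cast (by omega : k ≠ 0)
    have h3 : (r.eval z) ^ (k - 1) ≠ 0 := pow_ne_zero _ hrz
    rcases mul_eq_zero.1 h1 with h4 | h4
    · exact absurd h4 (mul_ne_zero h2 h3)
    · exact h4
  have hz : ∀ z, (derivative θ).eval z = 0 → f.eval z = 0 ∨ g.eval z = 0 := by
    intro z hz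
    by_contra hcon
    rw [not_or] at hcon
    obtain ⟨hfz, hgz⟩ := hcon
    have h1 := hzz f P b (by omega) hP z hz hfz
    have h2 := hzz g Q a (by omega) hQ z hz hgz
    have h3 := congrArg (eval z) hid
    rw [eval_sub, eval_mul, eval_mul, eval_mul, eval_mul, h1, h2, eval_C, mul_zero, mul_zero,
      zero_mul, sub_zero] at h3
    exact hc h3.symm
  have hw12 := hRHZ K f g P Q θ a b (by omega) (by omega) sf sg hP hQ hθ0 hz
  refine ⟨htr, θ.natDegree, hθ0, hw12, hw3, fun d hd => ?_⟩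
  have hF1 : a * b * n ≤ finrank K⟮φ⟯ (RatFunc K) := by
    rw [RatFunc.finrank_eq_max_natDegree]
    exact hN.trans (le_max_left _ _)
  have hFpos : 0 < finrank K⟮φ⟯ (RatFunc K) := lt_of_lt_of_le habn hF1
  haveI : FiniteDimensional K⟮φ⟯ (RatFunc K) := FiniteDimensional.of_finrank_pos hFpos
  have hint : IsIntegral K⟮φ⟯ ψ := IsIntegral.of_finite K⟮φ⟯ ψ
  have hmul : finrank K⟮φ⟯ K⟮φ⟯⟮ψ⟯ * finrank K⟮φ⟯⟮ψ⟯ (RatFunc K) = finrank K⟮φ⟯ (RatFunc K) :=
    Module.finrank_mul_finrank K⟮φ⟯ K⟮φ⟯⟮ψ⟯ (RatFunc K)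
  have hmin : finrank K⟮φ⟯ K⟮φ⟯⟮ψ⟯ = (minpoly K⟮φ⟯ ψ).natDegree :=
    IntermediateField.adjoin.finrank hint
  have hle : E ≤ (K⟮φ⟯⟮ψ⟯).restrictScalars K := by
    rw [hE, IntermediateField.adjoin_le_iff]
    rintro x (rfl | hx)
    · exact (K⟮x⟯⟮ψ⟯).algebraMap_mem (⟨x, IntermediateField.mem_adjoin_simple_self K x⟩ : K⟮x⟯)
    · rw [Set.mem_singleton_iff] at hx
      rw [hx]
      exact IntermediateField.mem_adjoin_simple_self K⟮φ⟯ ψ
  have hdvd : finrank ((K⟮φ⟯⟮ψ⟯).restrictScalars K) (RatFunc K) ∣ finrank E (RatFunc K) :=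
    IntermediateField.finrank_dvd_of_le_left hle
  have hEr : finrank E (RatFunc K) = θ.natDegree := by
    have h1 : ∀ E1 E2 : IntermediateField K (RatFunc K), E1 = E2 →
        finrank E1 (RatFunc K) = finrank E2 (RatFunc K) := by
      rintro E1 _ rfl
      rfl
    rw [h1 _ _ hθE]
    exact hfinE
  have hr : finrank K⟮φ⟯⟮ψ⟯ (RatFunc K) ≤ θ.natDegree := by
    refine Nat.le_of_dvd hθ0 ?_
    rw [← hEr]
    exact hdvd
  have hd' : d ≤ (minpoly K⟮φ⟯ ψ).natDegree := by
    by_contra hcon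
    rw [not_le] at hcon
    rw [hmin] at hmul
    have h1 : (minpoly K⟮φ⟯ ψ).natDegree * finrank K⟮φ⟯⟮ψ⟯ (RatFunc K) ≤
        (minpoly K⟮φ⟯ ψ).natDegree * θ.natDegree := Nat.mul_le_mul_left _ hr
    have h2 : (minpoly K⟮φ⟯ ψ).natDegree * θ.natDegree < d * θ.natDegree :=
      Nat.mul_lt_mul_of_pos_right hcon hθ0
    omega
  exact (linearIndependent_pow (K := K⟮φ⟯) ψ).comp (Fin.castLE hd') (Fin.castLE_injective hd')

end Pool.Agent.P8H76.FD
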