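import Pool.Agent.P8H36.FD.Stm

/-! # Project FD, package LIN: linear independence of powers -/

set_option autoImplicit false
set_option linter.all false

namespace Pool.Agent.P8H76.FD

open Polynomial IntermediateField Pool.Agent.P8H36.FD

theorem lin : S_LIN := by
  classical
  intro K L _ _ _ f g ψ a b d M hf hg ha hb hab hφ hli s α hα hM hsum
  by_contra hne
  obtain ⟨j1, hj1⟩ := Finset.nonempty_iff_ne_empty.2 hne
  obtain ⟨φ, hφd⟩ : ∃ φ : L, φ = f ^ b / g ^ a := ⟨_, rfl⟩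
  rw [← hφd] at hφ hli
  have hφ0 : φ ≠ 0 := by
    rw [hφd]
    exact div_ne_zero (pow_ne_zero _ hf) (pow_ne_zero _ hg)
  have hb' : (b : ℤ) ≠ 0 := by exact_mod_cast hb.ne'
  have ha' : (a : ℤ) ≠ 0 := by exact_mod_cast ha.ne'
  have hk : ∀ j ∈ s, ∃ k : ℤ, (j.2.1 : ℤ) = j1.2.1 + b * k ∧ (j1.2.2 : ℤ) = j.2.2 + a * k := by
    intro j hj
    have h1 := hM j hj
    have h2 := hM j1 hj1
    have h1' : (a : ℤ) * j.2.1 + b * j.2.2 = M := by exact_mod_cast h1
    have h2' : (a : ℤ) * j1.2.1 + b * j1.2.2 = M := by exact_mod_cast h2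
    have h3 : (a : ℤ) * ((j.2.1 : ℤ) - j1.2.1) = b * ((j1.2.2 : ℤ) - j.2.2) := by linarith
    have hco : IsCoprime (b : ℤ) (a : ℤ) := (Nat.isCoprime_iff_coprime.2 hab).symm
    have h4 : (b : ℤ) ∣ (j.2.1 : ℤ) - j1.2.1 := hco.dvd_of_dvd_mul_left ⟨_, h3⟩
    obtain ⟨k, hk⟩ := h4
    refine ⟨k, by linarith, ?_⟩
    have h5 : (b : ℤ) * (a * k) = b * ((j1.2.2 : ℤ) - j.2.2) := by
      rw [← h3, hk]
      ring
    have h6 := mul_left_cancel₀ hb' h5
    linarith
  choose! k hk1 hk2 using hk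
  have hpow : ∀ j ∈ s, f ^ j.2.1 * g ^ j.2.2 = f ^ j1.2.1 * g ^ j1.2.2 * φ ^ (k j) := by
    intro j hj
    have e1 : f ^ j.2.1 = f ^ j1.2.1 * (f ^ b) ^ (k j) := by
      rw [← zpow_natCast f j.2.1, hk1 j hj, zpow_add₀ hf, zpow_mul, zpow_natCast, zpow_natCast]
    have e2 : g ^ j1.2.2 = g ^ j.2.2 * (g ^ a) ^ (k j) := by
      rw [← zpow_natCast g j1.2.2, hk2 j hj, zpow_add₀ hg, zpow_mul, zpow_natCast, zpow_natCast]
    have hG : (g ^ a) ^ (k j) ≠ 0 := zpow_ne_zero _ (pow_ne_zero _ hg)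
    rw [e1, e2, hφd, div_zpow]
    generalize (g ^ a) ^ (k j) = G at hG
    generalize (f ^ b) ^ (k j) = F
    field_simp
  have hsum2 : ∑ j ∈ s, algebraMap K L (α j) * φ ^ k j * ψ ^ (j.1 : ℕ) = 0 := by
    have h0 : f ^ j1.2.1 * g ^ j1.2.2 ≠ 0 := mul_ne_zero (pow_ne_zero _ hf) (pow_ne_zero _ hg)
    apply mul_left_cancel₀ h0
    rw [mul_zero, Finset.mul_sum, ← hsum]
    refine Finset.sum_congr rfl fun j hj => ?_
    rw [hpow j hj]
    ring
  obtain ⟨φ', hφ'⟩ : ∃ φ' : K⟮φ⟯, algebraMap K⟮φ⟯ L φ' = φ :=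
    ⟨⟨φ, IntermediateField.mem_adjoin_simple_self K φ⟩, rfl⟩
  obtain ⟨c, hcd⟩ : ∃ c : Fin d → K⟮φ⟯, c = fun i => ∑ j ∈ s.filter (fun j => j.1 = i),
      algebraMap K K⟮φ⟯ (α j) * φ' ^ k j := ⟨_, rfl⟩
  have hcv : ∀ i, algebraMap K⟮φ⟯ L (c i) = ∑ j ∈ s.filter (fun j => j.1 = i),
      algebraMap K L (α j) * φ ^ k j := by
    intro i
    rw [hcd]
    simp only [map_sum, map_mul, map_zpow₀, hφ']
    rfl
  have hc : ∑ i, c i • ψ ^ (i : ℕ) = 0 := by
    have h1 : ∀ i, c i • ψ ^ (i : ℕ) = ∑ j ∈ s.filter (fun j => j.1 = i),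
        algebraMap K L (α j) * φ ^ k j * ψ ^ (j.1 : ℕ) := by
      intro i
      rw [Algebra.smul_def, hcv, Finset.sum_mul]
      refine Finset.sum_congr rfl fun j hj => ?_
      rw [(Finset.mem_filter.1 hj).2]
    rw [Finset.sum_congr rfl fun i _ => h1 i, Finset.sum_fiberwise]
    exact hsum2
  have hc0 := Fintype.linearIndependent_iff.1 hli c hc j1.1
  have hc1 : ∑ j ∈ s.filter (fun j => j.1 = j1.1), algebraMap K L (α j) * φ ^ k j = 0 := by
    rw [← hcv, hc0, map_zero]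
  obtain ⟨m, hm⟩ : ∃ m : ℕ, ∀ j ∈ s, 0 ≤ k j + m := by
    refine ⟨∑ j ∈ s, (k j).natAbs, fun j hj => ?_⟩
    have h1 := Finset.single_le_sum (f := fun j => (k j).natAbs) (fun i _ => Nat.zero_le _) hj
    omega
  obtain ⟨p, hpd⟩ : ∃ p : K[X], p = ∑ j ∈ s.filter (fun j => j.1 = j1.1),
      Polynomial.C (α j) * X ^ (k j + m).toNat := ⟨_, rfl⟩
  have hp : aeval φ p = 0 := by
    rw [hpd, map_sum]
    have h1 : ∀ j ∈ s.filter (fun j => j.1 = j1.1),
        aeval φ (Polynomial.C (α j) * X ^ (k j + m).toNat) =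
          φ ^ m * (algebraMap K L (α j) * φ ^ k j) := by
      intro j hj
      have h2 : φ ^ ((k j + m).toNat) = φ ^ (k j) * φ ^ m := by
        rw [← zpow_natCast φ ((k j + m).toNat),
          Int.toNat_of_nonneg (hm j (Finset.mem_filter.1 hj).1), zpow_add₀ hφ0, zpow_natCast]
      rw [map_mul, aeval_C, map_pow, aeval_X, h2]
      ring
    rw [Finset.sum_congr rfl h1, ← Finset.mul_sum, hc1, mul_zero]
  have hp0 : p = 0 := transcendental_iff.1 hφ p hp
  have hcoef : p.coeff ((k j1 + m).toNat) = α j1 := by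
    rw [hpd]
    simp only [Polynomial.finset_sum_coeff, Polynomial.coeff_C_mul, Polynomial.coeff_X_pow]
    rw [Finset.sum_eq_single j1]
    · rw [if_pos rfl, mul_one]
    · intro j hj hne'
      rw [Finset.mem_filter] at hj
      rw [if_neg, mul_zero]
      intro heq
      apply hne'
      have h1 := hm j hj.1
      have h2 := hm j1 hj1
      have h3 : k j = k j1 := by omega
      have h4 := hk1 j hj.1
      have h5 := hk1 j1 hj1
      have h6 := hk2 j hj.1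
      have h7 := hk2 j1 hj1
      rw [h3] at h4 h6
      have h8 : j.2.1 = j1.2.1 := by
        have : (j.2.1 : ℤ) = j1.2.1 := by linarith
        exact_mod_cast this
      have h9 : j.2.2 = j1.2.2 := by
        have : (j.2.2 : ℤ) = j1.2.2 := by linarith
        exact_mod_cast this
      exact Prod.ext hj.2 (Prod.ext h8 h9)
    · intro h
      exact absurd (show j1 ∈ s.filter (fun j => j.1 = j1.1) by
        rw [Finset.mem_filter]; exact ⟨hj1, rfl⟩) h
  exact hα j1 hj1 (by rw [← hcoef, hp0, coeff_zero])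

end Pool.Agent.P8H76.FD
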